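import Mathlib

set_option autoImplicit false

open Filter Finset

namespace Pool.Agent.H280R3.SparseDiff

open Classical in
/-- number of elements of `S` in the window `[M, M + n)` -/
noncomputable def win (S : Set ℕ) (M n : ℕ) : ℕ := ((Ico M (M + n)).filter (fun k => k ∈ S)).card

open Classical in
/-- number of elements of `S` in `[1, N]` -/
noncomputable def cnt (S : Set ℕ) (N : ℕ) : ℕ := ((Icc 1 N).filter (fun k => k ∈ S)).card

/-- upper end points of the pairs of elements of `E` whose difference lies in `[x, x + L]` -/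
def Bad (E : Set ℕ) (x L : ℕ) : Set ℕ := {e | e ∈ E ∧ ∃ e' ∈ E, e' + x ≤ e ∧ e ≤ e' + x + L}

lemma mem_Bad {E : Set ℕ} {x L e : ℕ} :
    e ∈ Bad E x L ↔ e ∈ E ∧ ∃ e' ∈ E, e' + x ≤ e ∧ e ≤ e' + x + L := Iff.rfl

lemma cnt_mono {S T : Set ℕ} (h : S ⊆ T) (N : ℕ) : cnt S N ≤ cnt T N := by
  classical
  unfold cnt
  exact card_le_card (fun k hk => by
    simp only [mem_filter] at hk ⊢
    exact ⟨hk.1, h hk.2⟩)

lemma cnt_union (S T : Set ℕ) (N : ℕ) : cnt (S ∪ T) N ≤ cnt S N + cnt T N := by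
  classical
  unfold cnt
  refine le_trans (card_le_card ?_) (card_union_le _ _)
  intro k hk
  simp only [mem_filter, mem_union, Set.mem_union] at hk ⊢
  tauto

/-- the averaging estimate -/
lemma sum_bad (E : Set ℕ) (a X L N : ℕ) (b : ℝ) (hb : ∀ M, (win E M (X + L) : ℝ) ≤ b) :
    ∑ x ∈ Ico a (a + X), (cnt (Bad E x L) N : ℝ) ≤ ((L : ℝ) + 1) * b * cnt E N := by
  classical
  have h1 : ∑ x ∈ Ico a (a + X), (cnt (Bad E x L) N : ℝ) =
      ∑ e ∈ (Icc 1 N).filter (fun k => k ∈ E),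
        (((Ico a (a + X)).filter (fun x => e ∈ Bad E x L)).card : ℝ) := by
    have h2 : ∀ x, (cnt (Bad E x L) N : ℝ) =
        ∑ e ∈ (Icc 1 N).filter (fun k => k ∈ E), (if e ∈ Bad E x L then (1 : ℝ) else 0) := by
      intro x
      rw [← Finset.sum_filter, Finset.sum_const, nsmul_eq_mul, mul_one]
      unfold cnt
      congr 2
      ext k
      simp only [mem_filter, mem_Bad]
      tauto
    simp_rw [h2]
    rw [Finset.sum_comm]
    refine Finset.sum_congr rfl fun e _ => ?_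
    rw [← Finset.sum_filter, Finset.sum_const, nsmul_eq_mul, mul_one]
  rw [h1]
  have h3 : ∀ e ∈ (Icc 1 N).filter (fun k => k ∈ E),
      (((Ico a (a + X)).filter (fun x => e ∈ Bad E x L)).card : ℝ) ≤ ((L : ℝ) + 1) * b := by
    intro e _
    set M := (e - a + 1) - (X + L) with hM
    have hsub : ((Ico a (a + X)).filter (fun x => e ∈ Bad E x L)) ⊆
        ((Ico M (M + (X + L))).filter (fun k => k ∈ E)).biUnion
          (fun e' => (Icc (e - e' - L) (e - e')).filter (fun x => x ≤ e)) := by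
      intro x hx
      simp only [mem_filter, mem_Ico, mem_Bad] at hx
      obtain ⟨⟨hx1, hx2⟩, he, e', he', h4, h5⟩ := hx
      simp only [mem_biUnion, mem_filter, mem_Ico, mem_Icc]
      refine ⟨e', ⟨⟨by omega, by omega⟩, he'⟩, ⟨by omega, by omega⟩, by omega⟩
    have hcard : ((Ico a (a + X)).filter (fun x => e ∈ Bad E x L)).card ≤
        win E M (X + L) * (L + 1) := by
      refine (card_le_card hsub).trans ?_
      refine (card_biUnion_le_card_mul _ _ (L + 1) ?_)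
      intro e' _
      refine (card_filter_le _ _).trans ?_
      rw [Nat.card_Icc]
      omega
    have : (((Ico a (a + X)).filter (fun x => e ∈ Bad E x L)).card : ℝ) ≤
        (win E M (X + L) : ℝ) * ((L : ℝ) + 1) := by exact_mod_cast hcard
    refine this.trans ?_
    rw [mul_comm]
    exact mul_le_mul_of_nonneg_left (hb M) (by positivity)
  refine (Finset.sum_le_card_nsmul _ _ _ h3).trans ?_
  rw [nsmul_eq_mul, mul_comm]
  rfl

/-- windows of `E` have small density, uniformly -/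
def Sparse (E : Set ℕ) : Prop :=
  ∀ ε : ℝ, 0 < ε → ∃ W : ℕ, ∀ n, W ≤ n → ∀ M, (win E M n : ℝ) ≤ ε * n

lemma pick_x (E : Set ℕ) (hE : Sparse E) (U : Ultrafilter ℕ) (L a : ℕ) (δ : ℝ) (hδ : 0 < δ) :
    ∃ x, a < x ∧ ∀ᶠ N in (U : Filter ℕ), (cnt (Bad E x L) N : ℝ) ≤ δ * cnt E N := by
  classical
  obtain ⟨W, hW⟩ := hE (δ / (2 * ((L : ℝ) + 1))) (by positivity)
  set X := W + L + 1 with hX
  -- for each N there is a good x
  have key : ∀ N : ℕ, ∃ x ∈ Ico (a + 1) (a + 1 + X),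
      (cnt (Bad E x L) N : ℝ) ≤ δ * cnt E N := by
    intro N
    by_contra hcon
    push Not at hcon
    have h1 := sum_bad E (a + 1) X L N (δ / (2 * ((L : ℝ) + 1)) * ((X + L : ℕ) : ℝ))
      (fun M => hW (X + L) (by omega) M)
    have h2 : ∑ x ∈ Ico (a + 1) (a + 1 + X), (δ * cnt E N) <
        ∑ x ∈ Ico (a + 1) (a + 1 + X), (cnt (Bad E x L) N : ℝ) := by
      refine Finset.sum_lt_sum_of_nonempty ⟨a + 1, ?_⟩ hcon
      simp only [mem_Ico]
      omega
    rw [Finset.sum_const, Nat.card_Ico, nsmul_eq_mul] at h2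
    have h3 : ((a + 1 + X - (a + 1) : ℕ) : ℝ) = X := by
      congr 1
      omega
    rw [h3] at h2
    have h4 : ((L : ℝ) + 1) * (δ / (2 * ((L : ℝ) + 1)) * ((X + L : ℕ) : ℝ)) * cnt E N =
        δ / 2 * ((X : ℝ) + L) * cnt E N := by
      push_cast
      field_simp
    rw [h4] at h1
    have h5 : (L : ℝ) ≤ X := by
      rw [hX]
      push_cast
      linarith [(Nat.cast_nonneg W : (0 : ℝ) ≤ W)]
    have h6 : δ / 2 * ((X : ℝ) + L) * cnt E N ≤ X * (δ * cnt E N) := by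
      have : 0 ≤ δ * (cnt E N : ℝ) := by positivity
      nlinarith
    linarith
  have h7 : ∀ᶠ N in (U : Filter ℕ), ∃ x ∈ (↑(Ico (a + 1) (a + 1 + X)) : Set ℕ),
      (cnt (Bad E x L) N : ℝ) ≤ δ * cnt E N :=
    Filter.Eventually.of_forall (fun N => by
      obtain ⟨x, hx, h⟩ := key N
      exact ⟨x, by exact_mod_cast hx, h⟩)
  rw [Ultrafilter.eventually_exists_mem_iff (Finset.finite_toSet _)] at h7
  obtain ⟨x, hx, h⟩ := h7
  refine ⟨x, ?_, h⟩
  have := (mem_Ico.1 (by exact_mod_cast hx : x ∈ Ico (a + 1) (a + 1 + X))).1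
  omega

/-- the state of the recursion -/
def Good (E : Set ℕ) (U : Ultrafilter ℕ) (η : ℝ) (n : ℕ) (p : Set ℕ × ℕ × ℕ) : Prop :=
  ∀ᶠ N in (U : Filter ℕ), (cnt p.1 N : ℝ) ≤ η * (1 - (1 / 2) ^ n) * cnt E N

lemma step (E : Set ℕ) (hE : Sparse E) (U : Ultrafilter ℕ) (hU : (U : Filter ℕ) ≤ atTop)
    (η : ℝ) (hη : 0 < η) (n : ℕ) (p : Set ℕ × ℕ × ℕ) (hp : Good E U η n p) :
    ∃ p' : Set ℕ × ℕ × ℕ, Good E U η (n + 1) p' ∧ p'.1 = p.1 ∪ Bad E p'.2.2 n ∧
      p.2.1 < p'.2.2 ∧ p.2.1 < p'.2.1 ∧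
      (cnt p'.1 p'.2.1 : ℝ) ≤ η * cnt E p'.2.1 := by
  obtain ⟨x, hx, hx'⟩ := pick_x E hE U n p.2.1 (η * (1 / 2) ^ (n + 1)) (by positivity)
  have hG : ∀ᶠ N in (U : Filter ℕ),
      (cnt (p.1 ∪ Bad E x n) N : ℝ) ≤ η * (1 - (1 / 2) ^ (n + 1)) * cnt E N := by
    filter_upwards [hx', hp] with N h1 h2
    have h3 : (cnt (p.1 ∪ Bad E x n) N : ℝ) ≤ cnt p.1 N + cnt (Bad E x n) N := by
      exact_mod_cast cnt_union _ _ _
    have h4 : η * (1 - (1 / 2) ^ (n + 1)) * (cnt E N : ℝ) =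
        η * (1 - (1 / 2) ^ n) * cnt E N + η * (1 / 2) ^ (n + 1) * cnt E N := by
      rw [pow_succ]
      ring
    rw [h4]
    linarith
  have hN := (hG.and (Filter.Eventually.filter_mono hU (eventually_gt_atTop p.2.1))).exists
  obtain ⟨N, hN1, hN2⟩ := hN
  refine ⟨(p.1 ∪ Bad E x n, N, x), hG, rfl, hx, hN2, ?_⟩
  refine hN1.trans ?_
  have h5 : (0 : ℝ) ≤ (1 / 2) ^ (n + 1) := by positivity
  have h6 : (0 : ℝ) ≤ cnt E N := by positivity
  have h7 : η * (1 - (1 / 2) ^ (n + 1)) ≤ η := by nlinarith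
  exact mul_le_mul_of_nonneg_right h7 h6

/-- For a set `E` of upper Banach density zero there are `x 0, x 1, …` and `A ⊆ E`, obtained by
removing from `E` a set of relative lower density at most `η`, such that no difference of two
elements of `A` lies in `⋃ [x n, x n + n]`. -/
theorem core (E : Set ℕ) (hE : Sparse E) (η : ℝ) (hη : 0 < η) :
    ∃ A ⊆ E, ∃ x : ℕ → ℕ,
      (∀ n, ∀ a ∈ A, ∀ b ∈ A, ¬ (b + x n ≤ a ∧ a ≤ b + x n + n)) ∧ (∀ n, 0 < x n) ∧
      ∃ᶠ N : ℕ in atTop, (1 - η) * cnt E N ≤ cnt A N := by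
  classical
  set U : Ultrafilter ℕ := hyperfilter ℕ with hUdef
  have hU : (U : Filter ℕ) ≤ atTop := Nat.hyperfilter_le_atTop
  obtain ⟨f, hf⟩ : ∃ f : ℕ → Set ℕ × ℕ × ℕ, ∀ n,
      (f (n + 1)).1 = (f n).1 ∪ Bad E (f (n + 1)).2.2 n ∧
      (f n).2.1 < (f (n + 1)).2.2 ∧ (f n).2.1 < (f (n + 1)).2.1 ∧
      (cnt (f (n + 1)).1 (f (n + 1)).2.1 : ℝ) ≤ η * cnt E (f (n + 1)).2.1 := by
    choose g hg1 hg2 using step E hE U hU η hη
    let F : (n : ℕ) → {p : Set ℕ × ℕ × ℕ // Good E U η n p} := fun n =>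
      Nat.rec ⟨(∅, 0, 0), by
        refine Filter.Eventually.of_forall fun N => ?_
        have : cnt (∅ : Set ℕ) N = 0 := by simp [cnt]
        simp [this]⟩ (fun n p => ⟨g n p.1 p.2, hg1 n p.1 p.2⟩) n
    exact ⟨fun n => (F n).1, fun n => hg2 n (F n).1 (F n).2⟩
  set x : ℕ → ℕ := fun n => (f (n + 1)).2.2 with hx
  set K : ℕ → ℕ := fun n => (f n).2.1 with hK
  have hKmono : StrictMono K := strictMono_nat_of_lt_succ (fun n => (hf n).2.2.1)
  have hB : ∀ m n, m < n → Bad E (x m) m ⊆ (f n).1 := by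
    intro m n hmn
    induction n with
    | zero => omega
    | succ n ih =>
      rw [(hf n).1]
      rcases Nat.lt_succ_iff_lt_or_eq.1 hmn with h | h
      · exact (ih h).trans Set.subset_union_left
      · subst h
        exact Set.subset_union_right
  refine ⟨{a | a ∈ E ∧ ∀ n, a ∉ Bad E (x n) n}, fun a ha => ha.1, x, ?_, ?_, ?_⟩
  · rintro n a ⟨ha, ha'⟩ b ⟨hb, -⟩ ⟨h1, h2⟩
    exact ha' n ⟨ha, b, hb, h1, h2⟩
  · intro n
    have := (hf n).2.1
    show 0 < (f (n + 1)).2.2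
    omega
  · rw [frequently_atTop]
    intro k
    refine ⟨K (k + 1), ?_, ?_⟩
    · have := hKmono.id_le (k + 1)
      simp only [id] at this
      omega
    · have h1 : (cnt (f (k + 1)).1 (K (k + 1)) : ℝ) ≤ η * cnt E (K (k + 1)) := (hf k).2.2.2
      have h2 : cnt E (K (k + 1)) ≤
          cnt {a | a ∈ E ∧ ∀ n, a ∉ Bad E (x n) n} (K (k + 1)) +
            cnt (f (k + 1)).1 (K (k + 1)) := by
        unfold cnt
        rw [← card_union_add_card_inter]
        refine le_trans (card_le_card ?_) (Nat.le_add_right _ _)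
        intro a ha
        simp only [mem_filter, mem_union, Set.mem_ofPred_eq] at ha ⊢
        by_cases h : ∀ n, a ∉ Bad E (x n) n
        · exact Or.inl ⟨ha.1, ha.2, h⟩
        · right
          push Not at h
          obtain ⟨n, hn⟩ := h
          refine ⟨ha.1, ?_⟩
          by_cases hnk : n < k + 1
          · exact hB n (k + 1) hnk hn
          · exfalso
            obtain ⟨-, e', -, h3, -⟩ := hn
            have h4 : K n < x n := (hf n).2.1
            have h5 : K (k + 1) ≤ K n := hKmono.monotone (by omega)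
            have h6 := (mem_Icc.1 ha.1).2
            omega
      have h3 : (cnt E (K (k + 1)) : ℝ) ≤
          cnt {a | a ∈ E ∧ ∀ n, a ∉ Bad E (x n) n} (K (k + 1)) +
            cnt (f (k + 1)).1 (K (k + 1)) := by exact_mod_cast h2
      linarith

end Pool.Agent.H280R3.SparseDiff
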