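import Pool.Agent.H280R3.SparseDiff

set_option autoImplicit false

open Filter Finset

namespace Pool.Agent.H280R3.SparseDiff

/-- a sequence all of whose positive differences lie in a thick set -/
lemma thick_seq (R : Set ℕ) (hR : ∀ n, ∃ y, 0 < y ∧ ∀ t ≤ n, y + t ∈ R) :
    ∃ h : ℕ → ℕ, Monotone h ∧ ∀ i j, i < j → ∃ r ∈ R, h j = h i + r := by
  choose y hy hyR using hR
  let h : ℕ → ℕ := fun n => Nat.rec 0 (fun _ s => s + y s) n
  have hs : ∀ n, h (n + 1) = h n + y (h n) := fun n => rfl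
  have hmono : Monotone h := monotone_nat_of_le_succ (fun n => by rw [hs]; omega)
  refine ⟨h, hmono, ?_⟩
  intro i j hij
  obtain ⟨m, rfl⟩ : ∃ m, j = m + 1 := ⟨j - 1, by omega⟩
  have h1 : h i ≤ h m := hmono (by omega)
  refine ⟨y (h m) + (h m - h i), hyR _ _ (by omega), ?_⟩
  rw [hs]
  omega

/-- thick sets meet the difference set of every set of positive upper density -/
lemma thick_meets (R : Set ℕ) (hR : ∀ n, ∃ y, 0 < y ∧ ∀ t ≤ n, y + t ∈ R) (A : Set ℕ)
    (δ : ℝ) (hδ : 0 < δ) (hA : ∃ᶠ N : ℕ in atTop, δ * N ≤ cnt A N) :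
    ∃ r ∈ R, ∃ a ∈ A, ∃ b ∈ A, a = b + r := by
  classical
  by_contra hcon
  push Not at hcon
  obtain ⟨h, hmono, hdiff⟩ := thick_seq R hR
  obtain ⟨k, hk⟩ := exists_nat_gt (2 / δ)
  have hkey : ∀ N, k * cnt A N ≤ N + h k := by
    intro N
    have hinj : Set.InjOn (fun q : ℕ × ℕ => q.2 + h q.1)
        (((range k) ×ˢ ((Icc 1 N).filter (fun a => a ∈ A)) : Finset (ℕ × ℕ)) : Set (ℕ × ℕ)) := by
      rintro ⟨i, a⟩ hq ⟨j, b⟩ hq' heq
      simp only [coe_product, Set.mem_prod, mem_coe, mem_range, mem_filter] at hq hq'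
      simp only at heq
      rcases lt_trichotomy i j with hij | hij | hij
      · exfalso
        obtain ⟨r, hr, hr'⟩ := hdiff i j hij
        exact hcon r hr a hq.2.2 b hq'.2.2 (by omega)
      · subst hij
        simp only [Prod.mk.injEq, true_and]
        omega
      · exfalso
        obtain ⟨r, hr, hr'⟩ := hdiff j i hij
        exact hcon r hr b hq'.2.2 a hq.2.2 (by omega)
    have hmaps : ((range k) ×ˢ ((Icc 1 N).filter (fun a => a ∈ A)) : Finset (ℕ × ℕ)).image
        (fun q : ℕ × ℕ => q.2 + h q.1) ⊆ Icc 1 (N + h k) := by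
      intro t ht
      simp only [mem_image, mem_product, mem_range, mem_filter, mem_Icc, Prod.exists] at ht ⊢
      obtain ⟨i, a, ⟨hi, ⟨ha1, ha2⟩, -⟩, rfl⟩ := ht
      have := hmono hi.le
      omega
    have hc := card_le_card hmaps
    rw [card_image_of_injOn hinj, card_product, card_range, Nat.card_Icc] at hc
    simpa [cnt] using hc
  obtain ⟨N, hN1, hN2⟩ := (hA.and_eventually (eventually_gt_atTop (h k))).exists
  have h1 : (k : ℝ) * cnt A N ≤ N + h k := by exact_mod_cast hkey N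
  have h2 : 2 < k * δ := by
    rw [div_lt_iff₀ hδ] at hk
    exact hk
  have h3 : (h k : ℝ) < N := by exact_mod_cast hN2
  have h4 : (k : ℝ) * (δ * N) ≤ k * cnt A N := mul_le_mul_of_nonneg_left hN1 (by positivity)
  have h5 : (0 : ℝ) < N := lt_of_le_of_lt (by positivity) h3
  nlinarith

end Pool.Agent.H280R3.SparseDiff
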